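import Pool.Agent.Run7.h925.LB.Ex

set_option autoImplicit false

/-!
# Exact edge-colouring of tight multigraphs without two pentagons joined by three disjoint edges

`P*` is the Petersen graph minus a vertex (`StarMinor`).  Let `G` be a loopless multigraph (vertices
`Fin n`, edges `Fin m`, `ends e` the pair of ends of `e`) and `r = max (Δ G) (w G)`.

* `plus ends f`: `G` with a new vertex `Fin.last n` and one new edge from it to `f i`, for `i : Fin r`.
* `Brick H`: deleting any two vertices of `H` leaves a connected graph with a perfect matching.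
* `OddMinor H G`: `H` is a minor of `G`, with branch sets that have an odd number of vertices.
* `LinkedMinor G`: some graph obtained from two disjoint pentagons by adding three disjoint edges between
  them is a minor of `G`.

Proof: in the tight case (`n` odd, `2 m = r (n - 1)`) let `f` list every vertex `v` exactly `r - deg v`
times; then `plus ends f` is an `r`-graph (`Pool/Agent/Run7/h925/LB/Ex.lean`, by helper818).  In a brick
without `LinkedMinor` any two circuits of length at least five meet, by Menger's theorem, and
`r`-graphs with such bricks are settled by the starting files.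
-/

namespace Pool.Agent.Results.MP_472cf3_co.LinkedPentagons

open H76FC H76TX H76TY H76TW Pool.Agent.W315.LB Pool.Agent.TH583.HB Pool.Agent.TH100.LV
  Pool.Agent.Run7.h925.LB.Ex Finset

/-- Some graph obtained from two disjoint pentagons by adding three disjoint edges between them is a
minor of `G`: the branch sets `A 0, ..., A 4` and `B 0, ..., B 4` are connected and pairwise disjoint,
cyclically consecutive ones are joined by an edge, and `A (i k)` is joined to `B (j k)` by an edge for
`k = 0, 1, 2`, where `i` and `j` are injective. -/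
def LinkedMinor {V : Type} (G : SimpleGraph V) : Prop :=
  ∃ (A B : Fin 5 → Set V) (i j : Fin 3 → Fin 5), Function.Injective i ∧ Function.Injective j ∧
    (∀ s, (G.induce (A s)).Connected) ∧ (∀ s, (G.induce (B s)).Connected) ∧
    (∀ s t, s ≠ t → Disjoint (A s) (A t)) ∧ (∀ s t, s ≠ t → Disjoint (B s) (B t)) ∧
    (∀ s t, Disjoint (A s) (B t)) ∧
    (∀ s, ∃ x ∈ A s, ∃ y ∈ A (s + 1), G.Adj x y) ∧
    (∀ s, ∃ x ∈ B s, ∃ y ∈ B (s + 1), G.Adj x y) ∧
    ∀ k, ∃ x ∈ A (i k), ∃ y ∈ B (j k), G.Adj x y

/-- Let `n` be odd, let all degrees be at most `r`, let every odd set `S` span at most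
`r (|S| - 1) / 2` edges and let `2 m = r (n - 1)`.  Let `G+` be the graph `G` plus a vertex, joined by
`r - deg v` edges to every vertex `v`.  Suppose that no minor of `G+` consists of two disjoint pentagons
and three disjoint edges between them; or that `G` has no `P*` minor and no brick with at least 14
vertices which is a minor of `G+` with odd branch sets has such a minor.  Then `G` has a proper edge
colouring with `r` colours. -/
theorem result (n m r : ℕ) (ends : Fin m → Sym2 (Fin n)) (hn : Odd n) (hl : ∀ e, ¬ (ends e).IsDiag)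
    (hd : ∀ v, #{e | v ∈ ends e} ≤ r)
    (hodd : ∀ S : Finset (Fin n), Odd S.card → 2 * #{e | ∀ v ∈ ends e, v ∈ S} ≤ r * (S.card - 1))
    (ht : 2 * m = r * (n - 1))
    (hB : ∀ f : Fin r → Fin n, (∀ v, #{e | v ∈ ends e} + #{i | f i = v} = r) →
      ¬ LinkedMinor (SimpleGraph.fromEdgeSet (Set.range (plus ends f))) ∨
      (¬ StarMinor (SimpleGraph.fromEdgeSet (Set.range ends)) ∧
        ∀ (W : Type) [Fintype W] (H : SimpleGraph W), Brick H → 14 ≤ Fintype.card W →
          OddMinor H (SimpleGraph.fromEdgeSet (Set.range (plus ends f))) → ¬ LinkedMinor H)) :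
    ∃ c : Fin m → Fin r, ∀ e₁ e₂, e₁ ≠ e₂ → (∃ v, v ∈ ends e₁ ∧ v ∈ ends e₂) → c e₁ ≠ c e₂ := by
  obtain ⟨f, hf⟩ := exists_list ends hn hl hd ht
  refine colour_of_cover ends f (Pool.Agent.Run7.h925.LB.mcover_linked (plus ends f)
    (plus_mgraph ends f hn hl hf hodd) (fun W _ H hH ho => ?_))
  rcases hB f hf with h | ⟨h1, h2⟩
  · refine Or.inl (fun hL => h ?_)
    obtain ⟨F, f1, f2, f3, f4⟩ := ho
    exact Pool.Agent.Run7.h925.LB.linked_minor (f := F) ⟨f1, f3, f4⟩ hL
  · by_cases hc : Fintype.card W ≤ 13
    · exact Or.inr (Or.inl ⟨hc, fun h' => h1 (star_of_pet ends f (pet_oddMinor H _ ho h'))⟩)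
    · exact Or.inl (h2 W H hH (by omega) ho)

end Pool.Agent.Results.MP_472cf3_co.LinkedPentagons
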