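import Pool.Agent.Run7.h818.HB.Exact

/-!
# Tight planar multigraphs without large linked pairs are of the first class

`P*` is the Petersen graph minus a vertex (`StarMinor`); planar graphs have no `P*` minor.
Let `G` be a loopless multigraph (vertices `Fin n`, edges `Fin m`, `ends e` the pair of ends of `e`) and
`r = max (Δ G) (w G)`.

* `plus ends f`: `G` with a new vertex `Fin.last n` and one new edge from it to `f i`, for `i : Fin r`.
  In the tight case (`n` odd, `2 m = r (n - 1)`) let `f` list every vertex `v` exactly `r - deg v` times.
  This is the multigraph `G⁺`.  Every `r`-graph `H` is `G⁺` for `G = H - z`, for every vertex `z`.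
* `Linked ends S T`: `S`, `T` are disjoint sets of vertices of odd size, both induce connected subgraphs
  with circuits of length at least five, and five pairwise disjoint edges join `S` and `T`.

Proof: the multigraph `G⁺` is an `r`-graph without Petersen minor, because the branch set of the new
vertex can be left out; the rest is in `Pool/Agent/Run7/h818/HB`.
-/

set_option autoImplicit false

namespace Pool.Agent.Results.MP_472cf3_co.TightGraphs

open Run7.h818.HB Finset

/-- Let `n` be odd, let all degrees be at most `r`, let every odd set `S` span at most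
`r (|S| - 1) / 2` edges and let `2 m = r (n - 1)`.  Then there is a list `f` that contains every vertex
`v` exactly `r - deg v` times.  Suppose that `G` has no `P*` minor, and that `n ≤ 12` or all linked pairs
of `G⁺ = plus ends f` have at most 13 vertices together.  Then `G⁺`, and so `G`, has a proper edge
colouring with `r` colours. -/
theorem result (n m r : ℕ) (ends : Fin m → Sym2 (Fin n)) (hn : Odd n)
    (hl : ∀ e, ¬ (ends e).IsDiag) (hd : ∀ v, #{e | v ∈ ends e} ≤ r)
    (hodd : ∀ S : Finset (Fin n), Odd S.card → 2 * #{e | ∀ v ∈ ends e, v ∈ S} ≤ r * (S.card - 1))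
    (ht : 2 * m = r * (n - 1)) :
    (∃ f : Fin r → Fin n, ∀ v, #{e | v ∈ ends e} + #{i | f i = v} = r) ∧
    ∀ f : Fin r → Fin n, (∀ v, #{e | v ∈ ends e} + #{i | f i = v} = r) →
      ¬ StarMinor (SimpleGraph.fromEdgeSet (Set.range ends)) →
      (n ≤ 12 ∨ ∀ S T, Linked (plus ends f) S T → S.card + T.card ≤ 13) →
      ∃ c : Fin (m + r) → Fin r, ∀ e₁ e₂, e₁ ≠ e₂ →
        (∃ v, v ∈ plus ends f e₁ ∧ v ∈ plus ends f e₂) → c e₁ ≠ c e₂ := by
  refine ⟨exists_list ends hn hl hd ht, fun f hf hP hL => ?_⟩
  refine exact_colouring ends hn hl hodd f hf hP fun S T h => ?_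
  rcases hL with hL | hL
  · have h1 : (S ∪ T).card ≤ n + 1 := by
      have := card_le_univ (S ∪ T)
      rwa [Fintype.card_fin] at this
    rw [card_union_of_disjoint h.disj] at h1
    omega
  · exact hL S T h

end Pool.Agent.Results.MP_472cf3_co.TightGraphs
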